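import Pool.Agent.Helper97.MT.ROOT

/-!
Project T3 (captain helper9): row ARI, passage to an equation between integers.
-/

set_option autoImplicit false

namespace Pool.Agent.Helper97.MT

open Finset Polynomial Pool.Agent.Helper70.SUB Pool.Agent.Helper9.MT

theorem st_ARI : ST_ARI := by
  intro d hd
  refine ⟨(d + 1) + (d + 2) * d + (d + 2), ?_⟩
  intro F x y B hdeg hsep hB hF hy
  set κ : ℕ := (d + 1) + (d + 2) * d + (d + 2) with hκ
  have hF0 : F ≠ 0 := by
    rintro rfl
    rw [Polynomial.natDegree_zero] at hdeg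
    omega
  set L : ℕ := ∏ i ∈ range (d + 1), (F.coeff i).den with hL
  have hL0 : L ≠ 0 := Finset.prod_ne_zero_iff.mpr fun i _ => (F.coeff i).den_ne_zero
  have hLB : (L : ℝ) ≤ B ^ (d + 1) := by
    rw [hL]
    push_cast
    calc ∏ i ∈ range (d + 1), ((F.coeff i).den : ℝ) ≤ ∏ _i ∈ range (d + 1), B :=
          Finset.prod_le_prod (fun _ _ => Nat.cast_nonneg _)
            fun i _ => (den_le_ht _).trans (hF i)
      _ = B ^ (d + 1) := by rw [Finset.prod_const, Finset.card_range]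
  have key : ∀ i, ∃ z : ℤ, (L : ℚ) * F.coeff i = (z : ℚ) := by
    intro i
    by_cases hi : i ∈ range (d + 1)
    · have h1 : (F.coeff i).den ∣ L := Finset.dvd_prod_of_mem (fun i => (F.coeff i).den) hi
      obtain ⟨c, hc⟩ := h1
      refine ⟨c * (F.coeff i).num, ?_⟩
      rw [hc]
      push_cast
      have h2 : (((F.coeff i).den : ℕ) : ℚ) * F.coeff i = (F.coeff i).num := by
        rw [mul_comm]; exact Rat.mul_den_eq_num _
      calc ((F.coeff i).den : ℚ) * c * F.coeff i = c * (((F.coeff i).den : ℚ) * F.coeff i) := by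
            ring
        _ = c * (F.coeff i).num := by rw [h2]
    · refine ⟨0, ?_⟩
      rw [Polynomial.coeff_eq_zero_of_natDegree_lt]
      · simp
      · rw [Finset.mem_range] at hi
        omega
  choose z hz using key
  set f : ℤ[X] := ∑ i ∈ range (d + 1), monomial i (z i) with hf
  have hcoeff : ∀ n, ((f.coeff n : ℤ) : ℚ) = (L : ℚ) * F.coeff n := by
    intro n
    rw [hf, Polynomial.finsetSum_coeff]
    simp only [Polynomial.coeff_monomial]
    by_cases hn : n ∈ range (d + 1)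
    · rw [Finset.sum_ite_eq' (range (d + 1)) n (fun i => z i), if_pos hn, hz]
    · rw [Finset.sum_ite_eq' (range (d + 1)) n (fun i => z i), if_neg hn,
        Polynomial.coeff_eq_zero_of_natDegree_lt (p := F)]
      · simp
      · rw [Finset.mem_range] at hn
        omega
  have hmap : f.map (Int.castRingHom ℚ) = C (L : ℚ) * F := by
    ext n
    rw [Polynomial.coeff_map, Polynomial.coeff_C_mul]
    exact hcoeff n
  have hLQ : (L : ℚ) ≠ 0 := by exact_mod_cast hL0
  have hfdeg : f.natDegree = d := by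
    have h1 : (f.map (Int.castRingHom ℚ)).natDegree = f.natDegree :=
      Polynomial.natDegree_map_eq_of_injective (RingHom.injective_int (Int.castRingHom ℚ)) f
    rw [← h1, hmap, Polynomial.natDegree_C_mul hLQ, hdeg]
  have hfsep : (f.map (Int.castRingHom ℚ)).Separable := by
    rw [hmap]
    exact Polynomial.Separable.unit_mul (Polynomial.isUnit_C.mpr (isUnit_iff_ne_zero.mpr hLQ)) hsep
  have hfB : ∀ i, |(f.coeff i : ℝ)| ≤ B ^ (d + 2) := by
    intro i
    have h1 : ((f.coeff i : ℤ) : ℝ) = (L : ℝ) * ((F.coeff i : ℚ) : ℝ) := by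
      exact_mod_cast hcoeff i
    have h2 : |((F.coeff i : ℚ) : ℝ)| ≤ B := by
      have h3 : ((F.coeff i : ℚ) : ℝ) = ((F.coeff i).num : ℝ) / ((F.coeff i).den : ℝ) :=
        Rat.cast_def _
      have h4 : (1 : ℝ) ≤ ((F.coeff i).den : ℝ) := by exact_mod_cast (F.coeff i).den_pos
      rw [h3, abs_div, abs_of_nonneg (by linarith : (0 : ℝ) ≤ ((F.coeff i).den : ℝ))]
      exact (div_le_self (abs_nonneg _) h4).trans ((num_le_ht _).trans (hF i))
    rw [h1, abs_mul, abs_of_nonneg (Nat.cast_nonneg L), pow_succ]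
    exact mul_le_mul hLB h2 (abs_nonneg _) (by positivity)
  have hBκ : ∀ m : ℕ, m ≤ κ → B ^ m ≤ B ^ κ := fun m hm => pow_le_pow_right₀ hB hm
  -- the value of the form
  set p : ℤ := x.num with hp
  set q : ℤ := (x.den : ℤ) with hq
  have hq0 : (q : ℚ) ≠ 0 := by
    rw [hq]
    exact_mod_cast x.den_ne_zero
  have hxpq : x = (p : ℚ) / (q : ℚ) := by
    rw [hp, hq]
    exact_mod_cast (Rat.num_div_den x).symm
  have hval : ((hom d f p q : ℤ) : ℚ) = (L : ℚ) * (q : ℚ) ^ d * y ^ 2 := by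
    rw [hy, Polynomial.eval_eq_sum_range' (n := d + 1) (by omega)]
    unfold hom
    push_cast
    rw [Finset.mul_sum]
    refine Finset.sum_congr rfl fun i hi => ?_
    have hi' : i ≤ d := by
      have := Finset.mem_range.mp hi
      omega
    rw [hcoeff i, hxpq, div_pow]
    have h1 : (q : ℚ) ^ d = (q : ℚ) ^ (d - i) * (q : ℚ) ^ i := by
      rw [← pow_add, Nat.sub_add_cancel hi']
    rw [h1]
    field_simp
  refine ⟨f, hfdeg, hfsep, fun i => (hfB i).trans (hBκ _ (by rw [hκ]; omega)), ?_, ?_⟩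
  · intro hy0
    set N : ℤ := y.num with hN
    set M : ℤ := (y.den : ℤ) with hM
    have hM0 : M ≠ 0 := by
      rw [hM]
      exact_mod_cast y.den_ne_zero
    have hN0 : N ≠ 0 := by
      rw [hN]
      exact Rat.num_ne_zero.mpr hy0
    have hyNM : y * M = N := by
      rw [hM, hN]
      exact_mod_cast Rat.mul_den_eq_num y
    have h1 : hom d f p q * M ^ 2 = (L : ℤ) * q ^ d * N ^ 2 := by
      have h2 : ((hom d f p q : ℤ) : ℚ) * (M : ℚ) ^ 2 = (L : ℚ) * (q : ℚ) ^ d * (N : ℚ) ^ 2 := by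
        rw [hval, ← hyNM]
        ring
      exact_mod_cast h2
    have hcop : IsCoprime (M ^ 2) (N ^ 2) := by
      have h2 : IsCoprime N M := by
        rw [Int.isCoprime_iff_gcd_eq_one]
        exact y.reduced
      exact h2.symm.pow
    have h2 : M ^ 2 ∣ (L : ℤ) * q ^ d :=
      hcop.dvd_of_dvd_mul_right ⟨hom d f p q, by rw [← h1]; ring⟩
    obtain ⟨k, hk⟩ := h2
    have hhk : hom d f p q = k * N ^ 2 := by
      have h3 : (M ^ 2) * hom d f p q = (M ^ 2) * (k * N ^ 2) := by
        rw [hk] at h1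
        linarith
      exact mul_left_cancel₀ (pow_ne_zero 2 hM0) h3
    have hqz : q ≠ 0 := by exact_mod_cast hq0
    have hLz : (L : ℤ) ≠ 0 := by exact_mod_cast hL0
    have hk0 : k ≠ 0 := by
      rintro rfl
      rw [mul_zero] at hk
      exact mul_ne_zero hLz (pow_ne_zero d hqz) hk
    refine ⟨k, hk0, ?_, hhk⟩
    -- `k` divides `L * b_d ^ d`
    have hpqc : IsCoprime p q := by
      rw [Int.isCoprime_iff_gcd_eq_one]
      exact x.reduced
    have hdv : k ∣ (L : ℤ) * (f.coeff d) ^ d := by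
      have h3 : k ∣ (L : ℤ) * q ^ d := ⟨M ^ 2, by rw [hk]; ring⟩
      have h4 : k ∣ (L : ℤ) * hom d f p q := ⟨(L : ℤ) * N ^ 2, by rw [hhk]; ring⟩
      have h5 : k ∣ gcd ((L : ℤ) * q ^ d) ((L : ℤ) * hom d f p q) := dvd_gcd h3 h4
      have h6 : gcd ((L : ℤ) * q ^ d) ((L : ℤ) * hom d f p q)
          ∣ (L : ℤ) * gcd (q ^ d) (hom d f p q) := by
        rw [_root_.gcd_mul_left]
        exact mul_dvd_mul_right (normalize_dvd_iff.mpr dvd_rfl) _
      have h7 : gcd (q ^ d) (hom d f p q) ∣ gcd q (hom d f p q) ^ d := gcd_pow_left_dvd_pow_gcd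
      have h8 : gcd q (hom d f p q) ∣ f.coeff d := by
        obtain ⟨w, hw⟩ := hom_mod d f p q
        have h9 : gcd q (hom d f p q) ∣ f.coeff d * p ^ d := by
          have h10 : f.coeff d * p ^ d = hom d f p q - q * w := by rw [hw]; ring
          rw [h10]
          exact dvd_sub (gcd_dvd_right _ _) ((gcd_dvd_left _ _).mul_right _)
        have h11 : IsCoprime (gcd q (hom d f p q)) (p ^ d) :=
          (hpqc.symm.of_isCoprime_of_dvd_left (gcd_dvd_left _ _)).pow_right
        exact h11.dvd_of_dvd_mul_right h9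
      exact h5.trans (h6.trans (mul_dvd_mul_left _ (h7.trans (pow_dvd_pow_of_dvd h8 d))))
    have hfd : f.coeff d ≠ 0 := by
      rw [← hfdeg]
      show f.leadingCoeff ≠ 0
      rw [Polynomial.leadingCoeff_ne_zero]
      intro h0
      rw [h0, Polynomial.natDegree_zero] at hfdeg
      omega
    have h3 : |k| ≤ |(L : ℤ) * (f.coeff d) ^ d| :=
      Int.le_of_dvd (abs_pos.mpr (mul_ne_zero hLz (pow_ne_zero d hfd)))
        ((abs_dvd_abs k _).mpr hdv)
    have h4 : |(k : ℝ)| ≤ (L : ℝ) * |(f.coeff d : ℝ)| ^ d := by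
      have h5 : ((|k| : ℤ) : ℝ) ≤ ((|(L : ℤ) * (f.coeff d) ^ d| : ℤ) : ℝ) := by exact_mod_cast h3
      rw [Int.cast_abs, Int.cast_abs] at h5
      push_cast at h5
      rw [abs_mul, abs_pow, abs_of_nonneg (Nat.cast_nonneg L : (0 : ℝ) ≤ (L : ℝ))] at h5
      exact h5
    calc |(k : ℝ)| ≤ (L : ℝ) * |(f.coeff d : ℝ)| ^ d := h4
      _ ≤ B ^ (d + 1) * (B ^ (d + 2)) ^ d :=
          mul_le_mul hLB (pow_le_pow_left₀ (abs_nonneg _) (hfB d) d)
            (pow_nonneg (abs_nonneg _) _) (by positivity)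
      _ = B ^ ((d + 1) + (d + 2) * d) := by rw [← pow_mul, ← pow_add]
      _ ≤ B ^ κ := hBκ _ (by rw [hκ]; omega)
  · intro hy0
    have h1 : ((hom d f p q : ℤ) : ℚ) = 0 := by rw [hval, hy0]; ring
    exact_mod_cast h1

end Pool.Agent.Helper97.MT
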