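import Pool.Agent.Helper9.MT.Sheet

/-!
Project T3 (captain helper9): row RESB, the resultant of `f` and `f'` with bounded cofactors.
-/

set_option autoImplicit false

namespace Pool.Agent.Helper97.MT

open Finset Polynomial Pool.Agent.Helper9.MT

/-- the cofactors, with their coefficients -/
theorem resb_cof (f g : ℤ[X]) (m n : ℕ) (hf : f.natDegree ≤ m) (hg : g.natDegree ≤ n)
    (hmn : 0 < m + n) :
    ∃ p q : ℤ[X], p.degree < (n : WithBot ℕ) ∧ q.degree < (m : WithBot ℕ) ∧
      f * p + g * q = C (f.resultant g m n) ∧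
      (∀ i : Fin n, p.coeff i =
        (f.sylvester g m n).adjugate (Fin.natAdd m i) ⟨0, hmn⟩) ∧
      (∀ i : Fin m, q.coeff i =
        (f.sylvester g m n).adjugate (Fin.castAdd n i) ⟨0, hmn⟩) := by
  set X₀ := adjSylvester (m := m) (n := n) f g (degreeLT.basis ℤ (m + n) ⟨0, hmn⟩) with hX₀
  have h1 : ((sylvesterMap f g hf hg X₀)).1 = _ :=
    congr(($(sylveserMap_comp_adjSylvester f g hf hg) _).1)
  have hrep : ∀ j : Fin (m + n),
      (((degreeLT.basis ℤ m).prod (degreeLT.basis ℤ n)).reindex finSumFinEquiv).repr X₀ j =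
        (f.sylvester g m n).adjugate j ⟨0, hmn⟩ := by
    intro j
    rw [hX₀]
    unfold adjSylvester
    rw [Matrix.toLin_self, map_sum, Finsupp.finsetSum_apply]
    simp only [map_smul, Module.Basis.repr_self, Finsupp.smul_apply, Finsupp.single_apply,
      smul_eq_mul, mul_ite, mul_one, mul_zero]
    rw [Finset.sum_ite_eq' Finset.univ j]
    simp
  refine ⟨X₀.2, X₀.1, ?_, ?_, ?_, ?_, ?_⟩
  · exact Polynomial.mem_degreeLT.1 X₀.2.2
  · exact Polynomial.mem_degreeLT.1 X₀.1.2
  · have h2 : ((sylvesterMap f g hf hg X₀)).1 = f * X₀.2 + g * X₀.1 := rfl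
    rw [← h2, h1]
    simp [Algebra.smul_def]
  · intro i
    rw [← hrep]
    simp
  · intro i
    rw [← hrep]
    simp

/-- bound for the determinant -/
theorem resb_det {n : ℕ} (A : Matrix (Fin n) (Fin n) ℤ) (x : ℝ)
    (h : ∀ i j, |(A i j : ℝ)| ≤ x) : |(A.det : ℝ)| ≤ (n.factorial : ℝ) * x ^ n := by
  have h1 : ((A.det : ℤ) : ℝ) = (A.map (Int.cast : ℤ → ℝ)).det := by
    have := RingHom.map_det (Int.castRingHom ℝ) A
    simpa using this
  rw [h1]
  have h2 := Matrix.det_le (A := A.map (Int.cast : ℤ → ℝ)) (abv := AbsoluteValue.abs) (x := x)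
    (fun i j => by simpa using h i j)
  rw [Fintype.card_fin, nsmul_eq_mul] at h2
  exact h2

theorem resb_adj {n : ℕ} (A : Matrix (Fin n) (Fin n) ℤ) (x : ℝ) (hx : 1 ≤ x)
    (h : ∀ i j, |(A i j : ℝ)| ≤ x) (i j : Fin n) :
    |(A.adjugate i j : ℝ)| ≤ (n.factorial : ℝ) * x ^ n := by
  rw [Matrix.adjugate_apply]
  apply resb_det
  intro r k
  rw [Matrix.updateRow_apply]
  split_ifs with hr
  · rw [Pi.single_apply]
    split_ifs
    · simpa using hx
    · simp; linarith
  · exact h r k

theorem st_RESB : ST_RESB := by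
  intro d f B hd hfd hsep hB hc
  have hB0 : 0 ≤ B := by linarith
  have hd1 : (2 : ℝ) ≤ d := by exact_mod_cast hd
  have hdB : 1 ≤ (d : ℝ) * B := by nlinarith
  have hder : (derivative f).natDegree ≤ d - 1 := by
    rw [← hfd]
    exact natDegree_derivative_le f
  have hmn : 0 < d + (d - 1) := by omega
  obtain ⟨p, q, hp, hq, hpq, hpc, hqc⟩ :=
    resb_cof f (derivative f) d (d - 1) hfd.le hder hmn
  have hent : ∀ i j, |((f.sylvester (derivative f) d (d - 1)) i j : ℝ)| ≤ (d : ℝ) * B := by
    have hfc : ∀ k, |(f.coeff k : ℝ)| ≤ (d : ℝ) * B := fun k => by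
      refine le_trans (hc k) ?_
      nlinarith
    have hgc : ∀ k, |((derivative f).coeff k : ℝ)| ≤ (d : ℝ) * B := fun k => by
      rw [coeff_derivative]
      by_cases hk : k + 1 ≤ d
      · push_cast
        rw [abs_mul, mul_comm]
        have h1 : |(k : ℝ) + 1| ≤ d := by
          rw [abs_of_nonneg (by positivity)]
          exact_mod_cast hk
        exact mul_le_mul h1 (hc _) (abs_nonneg _) (by positivity)
      · rw [coeff_eq_zero_of_natDegree_lt (by omega)]
        simp
        nlinarith
    intro i j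
    unfold sylvester
    rw [Matrix.of_apply]
    induction j using Fin.addCases with
    | left j =>
      rw [Fin.addCases_left]
      split_ifs
      · exact hgc _
      · simp; nlinarith
    | right j =>
      rw [Fin.addCases_right]
      split_ifs
      · exact hfc _
      · simp; nlinarith
  have hbig : ((d + (d - 1)).factorial : ℝ) * ((d : ℝ) * B) ^ (d + (d - 1)) ≤
      ((2 * d).factorial : ℝ) * (d * B) ^ (2 * d) := by
    apply mul_le_mul
    · exact_mod_cast Nat.factorial_le (by omega)
    · exact pow_le_pow_right₀ hdB (by omega)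
    · positivity
    · positivity
  have hbig0 : 0 ≤ ((2 * d).factorial : ℝ) * (d * B) ^ (2 * d) := by positivity
  refine ⟨p, q, f.resultant (derivative f) d (d - 1), ?_, ?_, ?_, hpq, ?_, ?_, ?_⟩
  · intro h0
    have h1 : (f.map (Int.castRingHom ℚ)).resultant ((derivative f).map (Int.castRingHom ℚ)) d
        (d - 1) = 0 := by
      rw [resultant_map_map, h0, map_zero]
    have hdf : (f.map (Int.castRingHom ℚ)).natDegree = d := by
      rw [natDegree_map_eq_of_injective (RingHom.injective_int _), hfd]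
    have hdg : ((derivative f).map (Int.castRingHom ℚ)).natDegree = d - 1 := by
      rw [← derivative_map, natDegree_derivative, hdf]
    have h2 := resultant_ne_zero (f.map (Int.castRingHom ℚ))
      ((derivative f).map (Int.castRingHom ℚ)) (by
        rw [← derivative_map]
        exact hsep)
    rw [hdf, hdg] at h2
    exact h2 h1
  · by_cases hp0 : p = 0
    · rw [hp0, natDegree_zero]; omega
    · have := (natDegree_lt_iff_degree_lt hp0).2 hp
      omega
  · by_cases hq0 : q = 0
    · rw [hq0, natDegree_zero]; omega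
    · have := (natDegree_lt_iff_degree_lt hq0).2 hq
      omega
  · exact le_trans (resb_det _ _ hent) hbig
  · intro i
    by_cases hi : i < d - 1
    · rw [show i = ((⟨i, hi⟩ : Fin (d - 1)) : ℕ) from rfl, hpc]
      exact le_trans (resb_adj _ _ hdB hent _ _) hbig
    · rw [coeff_eq_zero_of_degree_lt (lt_of_lt_of_le hp (by exact_mod_cast not_lt.1 hi))]
      simpa using hbig0
  · intro i
    by_cases hi : i < d
    · rw [show i = ((⟨i, hi⟩ : Fin d) : ℕ) from rfl, hqc]
      exact le_trans (resb_adj _ _ hdB hent _ _) hbig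
    · rw [coeff_eq_zero_of_degree_lt (lt_of_lt_of_le hq (by exact_mod_cast not_lt.1 hi))]
      simpa using hbig0

end Pool.Agent.Helper97.MT
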