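import Pool.Agent.Helper9.MT.Sheet

/-!
Project T3 (captain helper9): row ROOT.
-/

set_option autoImplicit false

namespace Pool.Agent.Helper97.MT

open Finset Polynomial Pool.Agent.Helper70.SUB Pool.Agent.Helper9.MT

/-- the form modulo `q` -/
theorem hom_mod (d : ℕ) (f : ℤ[X]) (p q : ℤ) :
    ∃ z : ℤ, hom d f p q = f.coeff d * p ^ d + q * z := by
  refine ⟨∑ i ∈ range d, f.coeff i * p ^ i * q ^ (d - i - 1), ?_⟩
  unfold hom
  rw [Finset.sum_range_succ, Nat.sub_self, pow_zero, mul_one, add_comm, Finset.mul_sum]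
  congr 1
  refine Finset.sum_congr rfl fun i hi => ?_
  have h1 : d - i = (d - i - 1) + 1 := by
    have := Finset.mem_range.mp hi
    omega
  rw [h1, pow_succ, Nat.add_sub_cancel]
  ring

theorem st_ROOT : ST_ROOT := by
  intro d hd f p q B hdeg hB hf hpq hq h0
  obtain ⟨z, hz⟩ := hom_mod d f p q
  have hfd : f.coeff d ≠ 0 := by
    rw [← hdeg]
    show f.leadingCoeff ≠ 0
    rw [Polynomial.leadingCoeff_ne_zero]
    rintro rfl
    rw [Polynomial.natDegree_zero] at hdeg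
    omega
  have hdvd : q ∣ f.coeff d := by
    have h1 : q ∣ f.coeff d * p ^ d := ⟨-z, by rw [hz] at h0; linarith⟩
    exact (hpq.symm.pow_right).dvd_of_dvd_mul_right h1
  have hqB : |(q : ℝ)| ≤ B := by
    have h1 : |q| ≤ |f.coeff d| := Int.le_of_dvd (abs_pos.mpr hfd) ((abs_dvd_abs q _).mpr hdvd)
    have h2 : |(q : ℝ)| ≤ |(f.coeff d : ℝ)| := by exact_mod_cast h1
    exact h2.trans (hf d)
  refine ⟨?_, hqB⟩
  have hd0 : (0 : ℝ) ≤ d := Nat.cast_nonneg d
  rcases le_or_gt |(p : ℝ)| |(q : ℝ)| with hle | hlt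
  · have h1 : |(p : ℝ)| ≤ B := hle.trans hqB
    nlinarith
  · have hp0 : 0 < |(p : ℝ)| := lt_of_le_of_lt (abs_nonneg _) hlt
    have hfd1 : (1 : ℝ) ≤ |(f.coeff d : ℝ)| := by
      have h1 : (1 : ℤ) ≤ |f.coeff d| := Int.one_le_abs hfd
      exact_mod_cast h1
    have h1 : |(p : ℝ)| ^ d ≤ d * (B * (|(p : ℝ)| ^ (d - 1) * |(q : ℝ)|)) := by
      have h2 : f.coeff d * p ^ d = -∑ i ∈ range d, f.coeff i * p ^ i * q ^ (d - i) := by
        unfold hom at h0
        rw [Finset.sum_range_succ, Nat.sub_self, pow_zero, mul_one] at h0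
        linarith
      have h3 : |((f.coeff d : ℤ) : ℝ)| * |(p : ℝ)| ^ d
          ≤ ∑ i ∈ range d, |(f.coeff i : ℝ)| * |(p : ℝ)| ^ i * |(q : ℝ)| ^ (d - i) := by
        have h4 : ((f.coeff d : ℤ) : ℝ) * (p : ℝ) ^ d
            = -∑ i ∈ range d, (f.coeff i : ℝ) * (p : ℝ) ^ i * (q : ℝ) ^ (d - i) := by
          exact_mod_cast h2
        rw [← abs_pow, ← abs_mul, h4, abs_neg]
        refine (Finset.abs_sum_le_sum_abs _ _).trans (le_of_eq ?_)
        refine Finset.sum_congr rfl fun i _ => ?_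
        rw [abs_mul, abs_mul, abs_pow, abs_pow]
      calc |(p : ℝ)| ^ d = 1 * |(p : ℝ)| ^ d := by rw [one_mul]
        _ ≤ |((f.coeff d : ℤ) : ℝ)| * |(p : ℝ)| ^ d :=
            mul_le_mul_of_nonneg_right hfd1 (pow_nonneg hp0.le _)
        _ ≤ ∑ i ∈ range d, |(f.coeff i : ℝ)| * |(p : ℝ)| ^ i * |(q : ℝ)| ^ (d - i) := h3
        _ ≤ ∑ _i ∈ range d, B * (|(p : ℝ)| ^ (d - 1) * |(q : ℝ)|) := by
            refine Finset.sum_le_sum fun i hi => ?_
            have hi' := Finset.mem_range.mp hi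
            have h5 : |(q : ℝ)| ^ (d - i) ≤ |(p : ℝ)| ^ (d - 1 - i) * |(q : ℝ)| := by
              have h6 : d - i = (d - 1 - i) + 1 := by omega
              rw [h6, pow_succ]
              exact mul_le_mul_of_nonneg_right (pow_le_pow_left₀ (abs_nonneg _) hlt.le _)
                (abs_nonneg _)
            calc |(f.coeff i : ℝ)| * |(p : ℝ)| ^ i * |(q : ℝ)| ^ (d - i)
                ≤ (B * |(p : ℝ)| ^ i) * (|(p : ℝ)| ^ (d - 1 - i) * |(q : ℝ)|) := by
                  refine mul_le_mul (mul_le_mul_of_nonneg_right (hf i) (pow_nonneg hp0.le _)) h5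
                    (pow_nonneg (abs_nonneg _) _) (mul_nonneg (by linarith) (pow_nonneg hp0.le _))
              _ = B * ((|(p : ℝ)| ^ i * |(p : ℝ)| ^ (d - 1 - i)) * |(q : ℝ)|) := by ring
              _ = B * (|(p : ℝ)| ^ (d - 1) * |(q : ℝ)|) := by
                  rw [← pow_add]
                  congr 3
                  omega
        _ = d * (B * (|(p : ℝ)| ^ (d - 1) * |(q : ℝ)|)) := by
            rw [Finset.sum_const, Finset.card_range, nsmul_eq_mul]
    have h2 : |(p : ℝ)| ≤ d * (B * |(q : ℝ)|) := by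
      have h3 : |(p : ℝ)| ^ d = |(p : ℝ)| * |(p : ℝ)| ^ (d - 1) := by
        rw [← pow_succ', Nat.sub_add_cancel hd]
      rw [h3] at h1
      have h4 : 0 < |(p : ℝ)| ^ (d - 1) := pow_pos hp0 _
      have h5 : |(p : ℝ)| * |(p : ℝ)| ^ (d - 1) ≤ (d * (B * |(q : ℝ)|)) * |(p : ℝ)| ^ (d - 1) := by
        calc |(p : ℝ)| * |(p : ℝ)| ^ (d - 1) ≤ d * (B * (|(p : ℝ)| ^ (d - 1) * |(q : ℝ)|)) := h1
          _ = _ := by ring
      exact le_of_mul_le_mul_right h5 h4
    calc |(p : ℝ)| ≤ d * (B * |(q : ℝ)|) := h2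
      _ ≤ d * (B * B) := by
          refine mul_le_mul_of_nonneg_left ?_ hd0
          exact mul_le_mul_of_nonneg_left hqB (by linarith)
      _ ≤ (d + 1) * B ^ 2 := by nlinarith [mul_nonneg hd0 (sq_nonneg B), sq_nonneg B]

end Pool.Agent.Helper97.MT
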